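import Pool.Agent.Lib.lead.CXSat

set_option autoImplicit false

namespace Pool.Agent.H.MP_398f0f_lc

open Finset

/-- colour preserving realisation on the numbers below `n` -/
def RealN (n : ℕ) (G : ℕ → ℕ → Prop) (c : ℕ → ℕ) : Prop :=
  ∃ σ : ℕ → ℕ, (∀ u < n, σ u < n ∧ c (σ u) = c u ∧ ¬ G (σ u) u) ∧
    ∀ u < n, ∀ v < n, u ≠ v → (G (σ u) v ↔ ¬ G (σ v) u)

/-- colour preserving realisation on the members of a list -/
def RealS {V : Type} (S : List V) (G : V → V → Prop) (c : V → ℕ) : Prop :=
  ∃ σ : V → V, (∀ u ∈ S, σ u ∈ S ∧ c (σ u) = c u ∧ ¬ G (σ u) u) ∧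
    ∀ u ∈ S, ∀ v ∈ S, u ≠ v → (G (σ u) v ↔ ¬ G (σ v) u)

lemma realS_iff {V : Type} [DecidableEq V] (S : List V) (hS : S.Nodup) (d : V) (G : V → V → Prop)
    (c : V → ℕ) : RealS S G c ↔
      RealN S.length (fun r v => G (S.getD r d) (S.getD v d)) (fun r => c (S.getD r d)) := by
  have h1 : ∀ x ∈ S, S.getD (S.idxOf x) d = x := fun x hx => by
    simp [List.idxOf_lt_length_of_mem hx]
  have h2 : ∀ i < S.length, S.getD i d ∈ S := fun i hi => by simp [hi]
  constructor
  · rintro ⟨σ, a, b⟩
    refine ⟨fun i => S.idxOf (σ (S.getD i d)), fun u hu => ?_, fun u hu v hv e => ?_⟩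
    · have := a _ (h2 u hu)
      simp only [h1 _ this.1]
      exact ⟨List.idxOf_lt_length_of_mem this.1, this.2⟩
    · simp only [h1 _ (a _ (h2 u hu)).1, h1 _ (a _ (h2 v hv)).1]
      exact b _ (h2 u hu) _ (h2 v hv) (by simpa [hu, hv, hS.getElem_inj_iff] using e)
  · rintro ⟨σ, a, b⟩
    refine ⟨fun x => S.getD (σ (S.idxOf x)) d, fun u hu => ?_, fun u hu v hv e => ?_⟩
    · have := a _ (List.idxOf_lt_length_of_mem hu)
      simp only [h1 u hu] at this
      exact ⟨h2 _ this.1, this.2⟩
    · have := b _ (List.idxOf_lt_length_of_mem hu) _ (List.idxOf_lt_length_of_mem hv)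
        fun h => e ((List.idxOf_inj hu).1 h)
      simpa only [h1 u hu, h1 v hv] using this

lemma inj_of {n : ℕ} {G : ℕ → ℕ → Prop} {σ : ℕ → ℕ} (a : ∀ u < n, ¬ G (σ u) u)
    (b : ∀ u < n, ∀ v < n, u ≠ v → (G (σ u) v ↔ ¬ G (σ v) u)) :
    ∀ u < n, ∀ v < n, σ u = σ v → u = v := fun u hu v hv e => by_contra fun h =>
  a v hv (e ▸ (b u hu v hv h).2 (e ▸ a u hu))

open Classical in
lemma degree {n : ℕ} {G : ℕ → ℕ → Prop} {σ : ℕ → ℕ} (m : ∀ u < n, σ u < n)
    (a : ∀ u < n, ¬ G (σ u) u) (b : ∀ u < n, ∀ v < n, u ≠ v → (G (σ u) v ↔ ¬ G (σ v) u))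
    (u : ℕ) (hu : u < n) :
    #{v ∈ range n | G (σ u) v} + #{r ∈ range n | G r u} + 1 = n := by
  have i : Set.InjOn σ (range n) := fun x hx y hy => inj_of a b x (by simpa using hx) y (by simpa using hy)
  have s := surj_on_of_inj_on_of_card_le (s := range n) (t := range n) (fun x _ => σ x)
    (fun x hx => by simpa using m x (by simpa using hx)) (fun x y hx hy => i hx hy) le_rfl
  have e1 : #{v ∈ range n | G (σ v) u} = #{r ∈ range n | G r u} := by
    refine card_nbij σ (fun x hx => ?_) (i.mono (by simp [Set.subset_def]; tauto)) fun r hr => ?_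
    · simp only [coe_filter, mem_range, Set.mem_ofPred] at hx ⊢
      exact ⟨m x hx.1, hx.2⟩
    · simp only [coe_filter, Set.mem_ofPred] at hr
      obtain ⟨x, hx, rfl⟩ := s r hr.1
      exact ⟨x, by simpa using ⟨by simpa using hx, hr.2⟩, rfl⟩
  have e2 := card_filter_add_card_filter_not (s := range n) fun v => G (σ v) u
  have e3 : {v ∈ range n | ¬ G (σ v) u} = insert u {v ∈ range n | G (σ u) v} := by
    ext v
    simp only [mem_filter, mem_range, mem_insert]
    by_cases h : v = u
    · simp [h, hu, a u hu]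
    · simp only [h, false_or]
      exact and_congr_right fun hv => (b u hu v hv (Ne.symm h)).symm
  rw [e3, card_insert_of_notMem (by simp [a u hu]), card_range] at e2
  omega

/-- adding a regular tournament of dummies that encodes the colours in the degrees -/
def big (n q : ℕ) (G : ℕ → ℕ → Prop) (c : ℕ → ℕ) (r v : ℕ) : Prop :=
  (r < n ∧ v < n ∧ G r v) ∨ (r < n ∧ n ≤ v ∧ v < q + 2 * n + 2 + c r * (n + 2)) ∨
  (n ≤ r ∧ v < n ∧ q + 2 * n + 2 + c v * (n + 2) ≤ r) ∨
  (n ≤ r ∧ n ≤ v ∧ ((r < v ∧ v ≤ r + q) ∨ v + q < r))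

lemma big_iff {n q t : ℕ} {G : ℕ → ℕ → Prop} {c : ℕ → ℕ} (hc : ∀ u < n, c u ≤ t)
    (hq : q = n + 2 + t * (n + 2)) :
    RealN n G c ↔ RealN (n + (2 * q + 1)) (big n q G c) fun _ => 0 := by
  classical
  constructor
  · rintro ⟨σ, a, b⟩
    refine ⟨fun u => if u < n then σ u else u, fun u hu => ?_, fun u hu v hv e => ?_⟩
    · by_cases h : u < n
      · have := a u h
        simp only [h, if_true, big, this.2.2, and_false, true_and, false_or, false_and, or_false]
        omega
      · simp only [h, if_false, big, false_and, true_and, and_false, false_or]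
        omega
    · by_cases h : u < n <;> by_cases h' : v < n <;> simp only [h, h', if_true, if_false, big]
      · simp [a u h, a v h', h.not_ge, h'.not_ge, (a u h).1.not_ge, (a v h').1.not_ge, b u h v h' e]
      · simp [a u h, h.not_ge, (a u h).1.not_ge, not_lt.1 h']
      · simp [a v h', h'.not_ge, (a v h').1.not_ge, not_lt.1 h]
      · simp only [false_and, and_false, false_or]
        omega
  · rintro ⟨σ, a, b⟩
    have ct : ∀ u < n, c u * (n + 2) ≤ t * (n + 2) := fun u hu => Nat.mul_le_mul_right _ (hc u hu)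
    have key : ∀ u < n, σ u < n ∧ c (σ u) = c u := fun u hu => by
      have e := degree (fun u hu => (a u hu).1) (fun u hu => (a u hu).2.2) b u (by omega)
      have c1 := ct u hu
      have i1 : #{r ∈ range (n + (2 * q + 1)) | big n q G c r u} ≤
          n + (n + (2 * q + 1) - (q + 2 * n + 2 + c u * (n + 2))) := by
        rw [← Nat.card_Ico, ← card_range n]
        refine (card_le_card fun r hr => ?_).trans (card_union_le _ _)
        simp only [big, mem_filter, mem_range, mem_union, mem_Ico, card_range] at hr ⊢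
        by_cases h : G r u <;> simp only [h] at hr <;> omega
      have i2 : n + (2 * q + 1) - (q + 2 * n + 2 + c u * (n + 2)) ≤
          #{r ∈ range (n + (2 * q + 1)) | big n q G c r u} := by
        rw [← Nat.card_Ico]
        refine card_le_card fun r hr => ?_
        rw [mem_Ico] at hr
        exact mem_filter.2 ⟨mem_range.2 hr.2, .inr (.inr (.inl (by omega)))⟩
      by_cases h : σ u < n
      · have c2 := ct _ h
        have o1 : #{v ∈ range (n + (2 * q + 1)) | big n q G c (σ u) v} ≤
            q + 2 * n + 2 + c (σ u) * (n + 2) := by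
          refine (card_le_card fun r hr => mem_range.2 ?_).trans (card_range _).le
          have hr := (mem_filter.1 hr).2
          by_cases h : G (σ u) r <;> 
            simp only [big, h, and_true, and_false, false_or] at hr <;> omega
        have o2 : q + 2 * n + 2 + c (σ u) * (n + 2) - n ≤
            #{v ∈ range (n + (2 * q + 1)) | big n q G c (σ u) v} := by
          rw [← Nat.card_Ico]
          refine card_le_card fun r hr => ?_
          rw [mem_Ico] at hr
          exact mem_filter.2 ⟨mem_range.2 (by omega), .inr (.inl (by omega))⟩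
        refine ⟨h, ?_⟩
        rcases lt_trichotomy (c (σ u)) (c u) with h1 | h1 | h1
        · have := Nat.mul_le_mul_right (n + 2) (Nat.succ_le_of_lt h1)
          rw [Nat.succ_mul] at this
          omega
        · exact h1
        · have := Nat.mul_le_mul_right (n + 2) (Nat.succ_le_of_lt h1)
          rw [Nat.succ_mul] at this
          omega
      · have h2 := (a u (by omega)).1
        have o1 : #{v ∈ range (n + (2 * q + 1)) | big n q G c (σ u) v} ≤ #(range (n + q)) := by
          refine card_le_card_of_injOn (fun v => if v < n then v else if σ u < v then n + (v - σ u - 1)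
            else v + (2 * q + 1) - σ u - 1 + n - 0) (fun v hv => ?_) fun v hv w hw e => ?_
          · simp only [big, coe_filter, mem_range, Set.mem_ofPred, h, false_and, false_or, coe_range,
              Set.mem_Iio] at hv ⊢
            split_ifs <;> omega
          · simp only [big, coe_filter, mem_range, Set.mem_ofPred, h, false_and, false_or] at hv hw e
            split_ifs at e <;> omega
        rw [card_range] at o1
        omega
    refine ⟨σ, fun u hu => ⟨(key u hu).1, (key u hu).2, fun h => (a u (by omega)).2.2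
      (.inl ⟨(key u hu).1, hu, h⟩)⟩, fun u hu v hv e => ?_⟩
    simpa [big, hu, hv, (key u hu).1, (key v hv).1, hu.not_ge, hv.not_ge, (key u hu).1.not_ge,
      (key v hv).1.not_ge] using b u (by omega) v (by omega) e

end Pool.Agent.H.MP_398f0f_lc
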