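import Pool.Agent.H.MP_398f0f_lc.Col

set_option autoImplicit false
set_option synthInstance.maxSize 4000

namespace Pool.Agent.H.MP_398f0f_lc

open Pool.Agent.Lib.CX

def tb : List (List ℕ) :=
  [[128, 0, 0, 0, 0, 0, 0, 16384, 0, 0, 0, 0, 0, 0, 1], [22, 100, 88, 67, 42, 13, 49],
   [1633324, 382168, 756193, 1907211, 1274133, 1483442, 935750, 1447523, 683031, 323758, 853492,
    1608397, 1136986, 238393, 733656, 1444777, 1595155, 195124, 354018, 830789, 1154190],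
   [943460, 1870989, 643544, 1772337, 1398339, 1243158, 500394, 1225273, 411378, 584743, 366828,
    729557, 1837899, 1135902, 1645770, 227609, 1446819, 816662, 1108652, 370160, 692037],
   [1733654, 451256, 869858, 1871397, 1169612, 764241, 1512203, 1706857, 1137691, 192821, 463602,
    812615, 1353902, 624092, 373992, 921029, 1612427, 620828, 1254321, 1333074, 192038]]

def inn (k i x i' x' : ℕ) : Prop :=
  (tb.getD k []).getD (7 * i + x) 0 / 2 ^ min (7 * i' + x') 21 % 2 = 1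

instance (k i x i' x' : ℕ) : Decidable (inn k i x i' x') := by unfold inn; infer_instance

def TX (l : List ℕ) : Prop := ∀ u < l.length, ¬ inn 1 0 (l.getD u 0) 0 u ∧
  ∀ v < l.length, u ≠ v → (inn 1 0 (l.getD u 0) 0 v ↔ ¬ inn 1 0 (l.getD v 0) 0 u)

instance (l : List ℕ) : Decidable (TX l) := by unfold TX; infer_instance

def TW (k : ℕ) (l : List ℕ) (y : ℕ) : Prop := ∀ a < 3, ∀ w < 7, ∀ a' < 3, ∀ w' < 7,
  ((a + y) % 3 ≠ (a' + y) % 3 ∨ l.getD w 0 ≠ l.getD w' 0) →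
    (inn k a w ((a' + y) % 3) (l.getD w' 0) ↔ ¬ inn k a' w' ((a + y) % 3) (l.getD w 0))

instance (k : ℕ) (l : List ℕ) (y : ℕ) : Decidable (TW k l y) := by unfold TW; infer_instance

lemma keyY : ∀ a < 3, ∀ b < 3, ∀ c < 3, ¬ inn 0 a 0 0 0 → ¬ inn 0 b 0 1 0 → ¬ inn 0 c 0 2 0 →
    (inn 0 a 0 1 0 ↔ ¬ inn 0 b 0 0 0) → (inn 0 a 0 2 0 ↔ ¬ inn 0 c 0 0 0) →
    a < 2 ∧ b = (1 + a) % 3 ∧ c = (2 + a) % 3 := by
  have : ∀ a < 3, ∀ b < 3, ∀ c < 3, (¬ inn 0 a 0 0 0 ∧ ¬ inn 0 b 0 1 0 ∧ ¬ inn 0 c 0 2 0 ∧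
    (inn 0 a 0 1 0 ↔ ¬ inn 0 b 0 0 0) ∧ (inn 0 a 0 2 0 ↔ ¬ inn 0 c 0 0 0)) →
    a < 2 ∧ b = (1 + a) % 3 ∧ c = (2 + a) % 3 := by decide +kernel
  exact fun a h1 b h2 c h3 h4 h5 h6 h7 h8 => this a h1 b h2 c h3 ⟨h4, h5, h6, h7, h8⟩

def KX : ℕ → List ℕ → Prop
  | 0, l => ∀ y0 < 2, ¬ TW 2 l y0 ∨ ∀ y1 < 2, ¬ TW 3 l y1 ∨ ∀ y2 < 2, ¬ TW 4 l y2 ∨ y0 + y1 + y2 = 1
  | n + 1, l => ∀ a < 7, ¬ TX (l ++ [a]) ∨ KX n (l ++ [a])

instance decKX : ∀ n l, Decidable (KX n l)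
  | 0, l => by unfold KX; infer_instance
  | n + 1, l => by unfold KX; have := decKX n; infer_instance

lemma keyX (s : ℕ → ℕ) (h1 : ∀ w < 7, s w < 7) (h2 : ∀ n ≤ 7, TX ((List.range n).map s)) :
    KX 0 ((List.range 7).map s) := by
  have : ∀ n m, m + n = 7 → KX n ((List.range m).map s) → KX 0 ((List.range 7).map s) := by
    intro n
    induction n with
    | zero => rintro m rfl h; exact h
    | succ n ih =>
      intro m e h
      have := h2 (m + 1) (by omega)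
      refine ih (m + 1) (by omega) ?_
      rw [List.range_succ, List.map_append] at this ⊢
      exact (h (s m) (h1 m (by omega))).resolve_left fun h => h this
  exact this 7 0 rfl (show KX 7 [] by decide +kernel)

def sx (t w : ℕ) : ℕ :=
  ([[0, 1, 2, 3, 4, 5, 6], [0, 2, 4, 6, 1, 3, 5], [1, 5, 2, 6, 3, 0, 4]].getD t []).getD w 0
def si (t w : ℕ) : ℕ :=
  ([[0, 1, 2, 3, 4, 5, 6], [0, 4, 1, 5, 2, 6, 3], [5, 0, 2, 4, 6, 1, 3]].getD t []).getD w 0

lemma okY : ∀ y < 2, ∀ i < 3, ¬ inn 0 ((i + y) % 3) 0 i 0 ∧ ∀ i' < 3, i ≠ i' →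
    (inn 0 ((i + y) % 3) 0 i' 0 ↔ ¬ inn 0 ((i' + y) % 3) 0 i 0) := by decide +kernel

lemma okX : ∀ t < 3, ∀ w < 7, (sx t w < 7 ∧ si t w < 7 ∧ ¬ inn 1 0 (sx t w) 0 w) ∧
    ∀ w' < 7, (si t w = w' ↔ w = sx t w') ∧
      (w ≠ w' → (inn 1 0 (sx t w) 0 w' ↔ ¬ inn 1 0 (sx t w') 0 w)) := by decide +kernel

lemma okW : ∀ t < 3, ∀ k < 5, 2 ≤ k → ∀ y < 2, (y = 1 ↔ k = t + 2) → ∀ i < 3, ∀ w < 7,
    ¬ inn k ((i + 2 * y) % 3) (si t w) i w ∧ ∀ i' < 3, ∀ w' < 7, (i ≠ i' ∨ w ≠ w') →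
      (inn k ((i + 2 * y) % 3) (si t w) i' w' ↔ ¬ inn k ((i' + 2 * y) % 3) (si t w') i w) := by
  have : ∀ t < 3, ∀ k < 5, ∀ y < 2, ¬ (2 ≤ k ∧ (y = 1 ↔ k = t + 2)) ∨ ∀ i < 3, ∀ w < 7,
    ¬ inn k ((i + 2 * y) % 3) (si t w) i w ∧ ∀ i' < 3, ∀ w' < 7, (i ≠ i' ∨ w ≠ w') →
      (inn k ((i + 2 * y) % 3) (si t w) i' w' ↔ ¬ inn k ((i' + 2 * y) % 3) (si t w') i w) := by
    decide +kernel
  exact fun t h1 k h2 h3 y h4 h5 => (this t h1 k h2 y h4).resolve_left fun h => h ⟨h3, h5⟩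

abbrev W := ℕ × ℕ × ℕ × ℕ
abbrev F := List (T3 ℕ)

def col (u : W) : ℕ := 5 * u.2.1 + u.1
def vr (φ : F) (k j : ℕ) : ℕ := ((φ.map T3.vars).getD j []).getD (k - 2) 0
def cp (φ : F) (k j k' j' : ℕ) : Prop := 2 ≤ k ∧ ((k' = 0 ∧ j' = vr φ k j) ∨ (k' = 1 ∧ j' = j))
def eqc (r v : W) : Prop := (v.1 = 0 ∧ r.2.2.1 = v.2.2.1) ∨ (v.1 = 1 ∧ r.2.2.2 = v.2.2.2)

instance (φ : F) (k j k' j' : ℕ) : Decidable (cp φ k j k' j') := by unfold cp; infer_instance
instance (r v : W) : Decidable (eqc r v) := by unfold eqc; infer_instance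

def G (φ : F) (r v : W) : Prop :=
  (col r = col v ∧ inn r.1 r.2.2.1 r.2.2.2 v.2.2.1 v.2.2.2) ∨ (cp φ r.1 r.2.1 v.1 v.2.1 ∧ eqc r v) ∨
  (cp φ v.1 v.2.1 r.1 r.2.1 ∧ ¬ eqc v r) ∨
  (¬ cp φ r.1 r.2.1 v.1 v.2.1 ∧ ¬ cp φ v.1 v.2.1 r.1 r.2.1 ∧ col r < col v)

instance (φ : F) (r v : W) : Decidable (G φ r v) := by unfold G; infer_instance

def vs (φ : F) : List W :=
  [0] ×ˢ List.range (3 * φ.length) ×ˢ List.range 3 ×ˢ [0] ++
    ([1] ×ˢ List.range φ.length ×ˢ [0] ×ˢ List.range 7 ++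
      [2, 3, 4] ×ˢ List.range φ.length ×ˢ List.range 3 ×ˢ List.range 7)

variable {φ : F}

lemma mem_vs {k j i x : ℕ} : (k, j, i, x) ∈ vs φ ↔ (k = 0 ∧ j < 3 * φ.length ∧ i < 3 ∧ x = 0) ∨
    (k = 1 ∧ j < φ.length ∧ i = 0 ∧ x < 7) ∨ (2 ≤ k ∧ k < 5 ∧ j < φ.length ∧ i < 3 ∧ x < 7) := by
  simp only [vs, List.mem_append, List.mem_product, List.mem_range, List.mem_cons,
    List.not_mem_nil, or_false]
  omega

lemma G_same {k j i x i' x' : ℕ} : G φ (k, j, i, x) (k, j, i', x') ↔ inn k i x i' x' := by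
  have : ¬ cp φ k j k j := by unfold cp; omega
  simp [G, this, col]

lemma G_cp {k j i x k' j' i' x' : ℕ} (h : cp φ k j k' j') (hk : k < 5) :
    (G φ (k, j, i, x) (k', j', i', x') ↔ eqc (k, j, i, x) (k', j', i', x')) ∧
    (G φ (k', j', i', x') (k, j, i, x) ↔ ¬ eqc (k, j, i, x) (k', j', i', x')) := by
  have h1 : ¬ cp φ k' j' k j := by unfold cp at *; omega
  have h2 : 5 * j + k ≠ 5 * j' + k' := by unfold cp at *; omega
  simp [G, h, h1, col, h2, h2.symm]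

lemma vr_lt (hv : ∀ C ∈ φ, C.dist ∧ ∀ x ∈ C.vars, x < 3 * φ.length) {k j : ℕ} (hj : j < φ.length)
    (hk : k < 5) : vr φ k j < 3 * φ.length := by
  refine (hv _ (List.getElem_mem hj)).2 _ ?_
  have : k - 2 < (φ[j]).vars.length := by simp [T3.vars]; omega
  simp [vr, hj, this]

lemma vr2 {j : ℕ} (hj : j < φ.length) : vr φ 2 j = φ[j].1 := by simp [vr, hj, T3.vars]
lemma vr3 {j : ℕ} (hj : j < φ.length) : vr φ 3 j = φ[j].2.1 := by simp [vr, hj, T3.vars]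
lemma vr4 {j : ℕ} (hj : j < φ.length) : vr φ 4 j = φ[j].2.2 := by simp [vr, hj, T3.vars]

lemma sound (hv : ∀ C ∈ φ, C.dist ∧ ∀ x ∈ C.vars, x < 3 * φ.length) (H : RealS (vs φ) (G φ) col) :
    SatR one3 φ := by
  obtain ⟨σ, a, b⟩ := H
  have sh : ∀ k j i x, (k, j, i, x) ∈ vs φ → ∃ i' x', σ (k, j, i, x) = (k, j, i', x') ∧
      (k, j, i', x') ∈ vs φ := fun k j i x h => by
    obtain ⟨h1, h2, -⟩ := a _ h
    generalize σ (k, j, i, x) = z at *
    obtain ⟨k', j', i', x'⟩ := z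
    have h3 := mem_vs.1 h
    have h4 := mem_vs.1 h1
    simp only [col] at h2
    obtain rfl : k' = k := by omega
    obtain rfl : j' = j := by omega
    exact ⟨_, _, rfl, h1⟩
  have hY : ∀ x < 3 * φ.length, ∃ y < 2, ∀ i < 3, σ (0, x, i, 0) = (0, x, (i + y) % 3, 0) := by
    intro x hx
    have m : ∀ i < 3, (0, x, i, 0) ∈ vs φ := fun i hi => mem_vs.2 (by omega)
    have : ∀ i < 3, ∃ i' < 3, σ (0, x, i, 0) = (0, x, i', 0) := fun i hi => by
      obtain ⟨i', x', h1, h2⟩ := sh _ _ _ _ (m i hi)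
      rw [mem_vs] at h2
      obtain rfl : x' = 0 := by omega
      exact ⟨i', by omega, h1⟩
    obtain ⟨p, p1, p2⟩ := this 0 (by omega)
    obtain ⟨q, q1, q2⟩ := this 1 (by omega)
    obtain ⟨r, r1, r2⟩ := this 2 (by omega)
    have d := fun i hi => (a _ (m i hi)).2.2
    have e := fun i hi j hj (h : i ≠ j) => b _ (m i hi) _ (m j hj) (by simpa using h)
    obtain ⟨h1, h2, h3⟩ := keyY p p1 q q1 r r1 (by simpa only [p2, G_same] using d 0 (by omega))
      (by simpa only [q2, G_same] using d 1 (by omega)) (by simpa only [r2, G_same] using d 2 (by omega))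
      (by simpa only [p2, q2, G_same] using e 0 (by omega) 1 (by omega) (by omega))
      (by simpa only [p2, r2, G_same] using e 0 (by omega) 2 (by omega) (by omega))
    refine ⟨p, h1, fun i hi => ?_⟩
    interval_cases i
    · rw [p2, show (0 + p) % 3 = p by omega]
    · rw [q2, h2]
    · rw [r2, h3]
  choose! y y1 y2 using hY
  refine ⟨fun x => decide (y x = 1), fun C hC => ?_⟩
  obtain ⟨j, hj, rfl⟩ := List.getElem_of_mem hC
  have m : ∀ w < 7, (1, j, 0, w) ∈ vs φ := fun w hw => mem_vs.2 (by omega)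
  have hX : ∀ w < 7, ∃ s < 7, σ (1, j, 0, w) = (1, j, 0, s) := fun w hw => by
    obtain ⟨i', x', h1, h2⟩ := sh _ _ _ _ (m w hw)
    rw [mem_vs] at h2
    obtain rfl : i' = 0 := by omega
    exact ⟨x', by omega, h1⟩
  choose! s s1 s2 using hX
  have gd : ∀ n u, u < n → ((List.range n).map s).getD u 0 = s u := fun n u h => by simp [h]
  have hT : ∀ n ≤ 7, TX ((List.range n).map s) := fun n hn u hu => by
    rw [List.length_map, List.length_range] at hu ⊢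
    rw [gd n u hu]
    refine ⟨by simpa only [s2 u (by omega), G_same] using (a _ (m u (by omega))).2.2, fun v hv e => ?_⟩
    rw [gd n v hv]
    simpa only [s2 u (by omega), s2 v (by omega), G_same] using
      b _ (m u (by omega)) _ (m v (by omega)) (by simpa using e)
  have hW : ∀ k, 2 ≤ k → k < 5 → TW k ((List.range 7).map s) (y (vr φ k j)) := by
    intro k k1 k2
    have hx := vr_lt hv hj k2
    have := y1 _ hx
    have m' : ∀ i w, w < 7 → (k, j, (i + y (vr φ k j)) % 3, s w) ∈ vs φ := fun i w hw => by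
      have := s1 w hw
      exact mem_vs.2 (by omega)
    have e : ∀ i < 3, ∀ w < 7, σ (k, j, (i + y (vr φ k j)) % 3, s w) = (k, j, i, w) := by
      intro i hi w hw
      obtain ⟨i', x', h1, -⟩ := sh _ _ _ _ (m' i w hw)
      have c0 : cp φ k j 0 (vr φ k j) := ⟨k1, .inl ⟨rfl, rfl⟩⟩
      have c1 : cp φ k j 1 j := ⟨k1, .inr ⟨rfl, rfl⟩⟩
      have h2 := b _ (m' i w hw) (0, vr φ k j, i, 0) (mem_vs.2 (by omega)) (by simp; omega)
      have h3 := b _ (m' i w hw) _ (m w hw) (by simp; omega)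
      rw [h1, y2 _ hx i hi, (G_cp c0 k2).1, (G_cp c0 k2).2] at h2
      rw [h1, s2 w hw, (G_cp c1 k2).1, (G_cp c1 k2).2] at h3
      simp [eqc] at h2 h3
      rw [h1, h2, h3]
    intro i hi w hw i' hi' w' hw' ne
    rw [gd 7 w hw, gd 7 w' hw'] at *
    simpa only [e i hi w hw, e i' hi' w' hw', G_same] using
      b _ (m' i w hw) _ (m' i' w' hw') (by simpa [imp_iff_not_or] using ne)
  have z := fun k h => y1 _ (vr_lt hv (k := k) hj h)
  have := (((((keyX s s1 hT _ (z 2 (by omega))).resolve_left fun h => h (hW 2 (by omega) (by omega)))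
    _ (z 3 (by omega))).resolve_left fun h => h (hW 3 (by omega) (by omega)))
    _ (z 4 (by omega))).resolve_left fun h => h (hW 4 (by omega) (by omega))
  have z2 := z 2 (by omega)
  have z3 := z 3 (by omega)
  have z4 := z 4 (by omega)
  rw [vr2 hj, vr3 hj, vr4 hj] at *
  beta_reduce
  generalize y φ[j].1 = p, y φ[j].2.1 = q, y φ[j].2.2 = r at *
  interval_cases p <;> interval_cases q <;> interval_cases r <;> simp_all [one3]

lemma complete (H : SatR one3 φ) : RealS (vs φ) (G φ) col := by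
  obtain ⟨v, H⟩ := H
  have hy : ∀ x, (v x).toNat < 2 := fun x => Bool.toNat_lt _
  have : ∀ j < φ.length, ∃ t < 3, ∀ k, 2 ≤ k → k < 5 → ((v (vr φ k j)).toNat = 1 ↔ k = t + 2) := by
    intro j hj
    have := H _ (List.getElem_mem hj)
    rw [← vr2 hj, ← vr3 hj, ← vr4 hj] at this
    refine ⟨(v (vr φ 3 j)).toNat + 2 * (v (vr φ 4 j)).toNat, ?_, fun k h1 h2 => ?_⟩
    · revert this
      cases v (vr φ 2 j) <;> cases v (vr φ 3 j) <;> cases v (vr φ 4 j) <;> simp [one3]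
    · revert this
      interval_cases k <;> cases v (vr φ 2 j) <;> cases v (vr φ 3 j) <;> cases v (vr φ 4 j) <;> simp [one3]
  choose! t t1 t2 using this
  let s : ℕ → ℕ → ℕ → ℕ → ℕ × ℕ := fun k j i x => if k = 0 then ((i + (v j).toNat) % 3, 0) else
    if k = 1 then (0, sx (t j) x) else ((i + 2 * (v (vr φ k j)).toNat) % 3, si (t j) x)
  have s0 : ∀ j i x, s 0 j i x = ((i + (v j).toNat) % 3, 0) := fun _ _ _ => rfl
  have s1 : ∀ j i x, s 1 j i x = (0, sx (t j) x) := fun _ _ _ => rfl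
  have s2 : ∀ k, 2 ≤ k → ∀ j i x, s k j i x = ((i + 2 * (v (vr φ k j)).toNat) % 3, si (t j) x) :=
    fun k hk j i x => by simp only [s]; rw [if_neg (by omega), if_neg (by omega)]
  clear_value s
  have ec : ∀ k j i x k' j' i' x', (k, j, i, x) ∈ vs φ → (k', j', i', x') ∈ vs φ → cp φ k j k' j' →
      (eqc (k, j, s k j i x) (k', j', i', x') ↔ eqc (k, j, i, x) (k', j', s k' j' i' x')) := by
    rintro k j i x k' j' i' x' h1 h2 ⟨h3, ⟨rfl, rfl⟩ | ⟨rfl, rfl⟩⟩ <;> rw [mem_vs] at h1 h2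
    · have := hy (vr φ k j)
      simp only [eqc, s0, s2 k h3, true_and, zero_ne_one, false_and, or_false]
      omega
    · simp only [eqc, s1, s2 k h3, true_and, one_ne_zero, false_and, false_or]
      exact ((okX _ (t1 _ (by omega)) x (by omega)).2 x' (by omega)).1
  refine ⟨fun u => (u.1, u.2.1, s u.1 u.2.1 u.2.2.1 u.2.2.2), ?_, ?_⟩
  · rintro ⟨k, j, i, x⟩ hu
    rcases mem_vs.1 hu with ⟨rfl, h1, h2, rfl⟩ | ⟨rfl, h1, rfl, h2⟩ | ⟨h0, h1, h2, h3, h4⟩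
    · simp only [s0, G_same, col]
      exact ⟨mem_vs.2 (by omega), trivial, (okY _ (hy j) i h2).1⟩
    · have := (okX _ (t1 j h1) x h2).1
      simp only [s1, G_same, col]
      exact ⟨mem_vs.2 (by omega), trivial, this.2.2⟩
    · have := (okX _ (t1 j h2) x h4).1
      simp only [s2 k h0, mem_vs, G_same, col]
      exact ⟨by omega, trivial, (okW _ (t1 j h2) k h1 h0 _ (hy _) (t2 j h2 k h0 h1) i h3 x h4).1⟩
  · rintro ⟨k, j, i, x⟩ hu ⟨k', j', i', x'⟩ hw ne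
    have h1 := mem_vs.1 hu
    have h2 := mem_vs.1 hw
    dsimp only
    by_cases e : k = k' ∧ j = j'
    · obtain ⟨rfl, rfl⟩ := e
      have ne' : i ≠ i' ∨ x ≠ x' := by simpa [imp_iff_not_or] using ne
      rcases h1 with ⟨rfl, h1, h3, rfl⟩ | ⟨rfl, h1, rfl, h3⟩ | ⟨h0, h1, h3, h4, h5⟩
      · obtain rfl : x' = 0 := by omega
        simp only [s0, G_same]
        exact (okY _ (hy j) i h3).2 i' (by omega) (by omega)
      · obtain rfl : i' = 0 := by omega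
        simp only [s1, G_same]
        exact ((okX _ (t1 j h1) x h3).2 x' (by omega)).2 (by omega)
      · simp only [s2 k h0, G_same]
        exact (okW _ (t1 j h3) k h1 h0 _ (hy _) (t2 j h3 k h0 h1) i h4 x h5).2 i' (by omega) x'
          (by omega) ne'
    · by_cases c1 : cp φ k j k' j'
      · rw [(G_cp c1 (by omega)).1, (G_cp c1 (by omega)).2, not_not]
        exact ec _ _ _ _ _ _ _ _ hu hw c1
      · by_cases c2 : cp φ k' j' k j
        · rw [(G_cp c2 (by omega)).1, (G_cp c2 (by omega)).2]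
          exact not_congr (ec _ _ _ _ _ _ _ _ hw hu c2).symm
        · have : 5 * j + k ≠ 5 * j' + k' := by omega
          simp only [G, c1, c2, col, this, this.symm, false_and, false_or, not_false_eq_true, true_and]
          omega

end Pool.Agent.H.MP_398f0f_lc
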